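import Mathlib

/-!
# Bounded-degree trees with small exponential domination number

There is no constant `c > 0` such that `γ_e(T) ≥ c n(T) / log n(T)` for all trees `T` of maximum
degree at most `6`: in the complete 5-ary tree of height `h`, which has more than `5 ^ h` vertices,
any `4 ^ h / 2` leaves form an exponential dominating set.
-/

set_option autoImplicit false

open Finset

namespace Pool.Agent.Results.MP_75fda7_co.SmallSets

open Classical in
/-- `dist_{(G,S)}(u, v)`: the least length of a path from `u` to `v` with exactly one endvertex in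
`S` (the trivial path at a vertex of `S` included) and no internal vertex in `S`; `⊤` if there is
none. -/
noncomputable def expDist {V : Type} (G : SimpleGraph V) (S : Finset V) (u v : V) : ℕ∞ :=
  ⨅ p : {p : G.Walk u v // p.IsPath ∧ (({u, v} : Finset V) ∩ S).card = 1 ∧
    ∀ x ∈ p.support, x ≠ u → x ≠ v → x ∉ S}, (p.1.length : ℕ∞)

open Classical in
/-- `(1 / 2) ^ (d - 1)`, with the value `2` at `d = 0` and the value `0` at `d = ∞`. -/
noncomputable def halfPow (d : ℕ∞) : ℝ := if d = ⊤ then 0 else 2 * (1 / 2) ^ d.toNat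

/-- Exponential dominating sets. -/
def IsExpDom {V : Type} (G : SimpleGraph V) (S : Finset V) : Prop :=
  ∀ u, 1 ≤ ∑ v ∈ S, halfPow (expDist G S u v)

/-- The exponential domination number. -/
noncomputable def gammaE {V : Type} (G : SimpleGraph V) : ℕ :=
  sInf {k | ∃ S : Finset V, IsExpDom G S ∧ S.card = k}

lemma halfPow_nonneg (d : ℕ∞) : 0 ≤ halfPow d := by
  unfold halfPow
  split_ifs
  · exact le_rfl
  · positivity

lemma halfPow_ge {d : ℕ∞} {k : ℕ} (h : d ≤ k) : 2 * (1 / 2 : ℝ) ^ k ≤ halfPow d := by
  have hd : d ≠ ⊤ := fun h' => by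
    rw [h'] at h
    exact absurd h (not_le.2 (ENat.natCast_lt_top k))
  unfold halfPow
  rw [if_neg hd]
  have h2 : d.toNat ≤ k := by
    have := ENat.toNat_le_toNat h (ENat.natCast_ne_top k)
    simpa using this
  have := pow_le_pow_of_le_one (by norm_num : (0 : ℝ) ≤ 1 / 2) (by norm_num) h2
  linarith

/-- An internal vertex of a path has two neighbours. -/
lemma two_nbrs {V : Type} {G : SimpleGraph V} {u v : V} (p : G.Walk u v) (hp : p.IsPath) :
    ∀ x ∈ p.support, x ≠ u → x ≠ v → ∃ y z, y ≠ z ∧ G.Adj x y ∧ G.Adj x z := by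
  induction p with
  | nil =>
    intro x hx hxu _
    rw [SimpleGraph.Walk.support_nil, List.mem_singleton] at hx
    exact absurd hx hxu
  | @cons u w v h p ih =>
    intro x hx hxu hxv
    rw [SimpleGraph.Walk.cons_isPath_iff] at hp
    rw [SimpleGraph.Walk.support_cons, List.mem_cons] at hx
    rcases hx with hx | hx
    · exact absurd hx hxu
    · by_cases hxw : x = w
      · subst hxw
        cases p with
        | nil => exact absurd rfl hxv
        | @cons _ y _ h' p' =>
          refine ⟨u, y, ?_, h.symm, h'⟩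
          rintro rfl
          apply hp.2
          rw [SimpleGraph.Walk.support_cons]
          exact List.mem_cons_of_mem _ p'.start_mem_support
      · exact ih hp.1 x hx hxw hxv

/-- The graph formed by a new vertex joined to the copies of `r` in five copies of `G`. -/
def join {V : Type} (G : SimpleGraph V) (r : V) : SimpleGraph (Option (Fin 5 × V)) where
  Adj a b := match a, b with
    | some a, some b => a.1 = b.1 ∧ G.Adj a.2 b.2
    | none, some b => b.2 = r
    | some a, none => a.2 = r
    | none, none => False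
  symm := ⟨by
    intro a b h
    rcases a with _ | a <;> rcases b with _ | b
    · exact h
    · exact h
    · exact h
    · exact ⟨h.1.symm, h.2.symm⟩⟩
  loopless := ⟨by
    intro a h
    rcases a with _ | a
    · exact h
    · exact G.irrefl h.2⟩

/-- The inclusion of a copy. -/
def inc {V : Type} (G : SimpleGraph V) (r : V) (i : Fin 5) : G →g join G r where
  toFun v := some (i, v)
  map_rel' := fun h => ⟨rfl, h⟩

/-- The data of the trees. -/
def Good (h n : ℕ) : Prop :=
  ∃ (V : Type) (_ : Fintype V) (G : SimpleGraph V) (r : V) (L : Finset V), G.IsTree ∧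
    Fintype.card V = n ∧ L.card = 5 ^ h ∧ (∀ v, ∃ p : G.Walk r v, p.length ≤ h) ∧
    (∀ v, (v = r → (G.neighborSet v).ncard ≤ 5) ∧ (G.neighborSet v).ncard ≤ 6) ∧
    (∀ v ∈ L, (v = r → (G.neighborSet v).ncard = 0) ∧ (G.neighborSet v).ncard ≤ 1)

lemma good_zero : Good 0 1 := by
  refine ⟨Unit, inferInstance, ⊥, (), {()}, SimpleGraph.IsTree.of_subsingleton, by simp, by simp,
    fun v => ⟨SimpleGraph.Walk.nil, by simp⟩, ?_, ?_⟩
  · intro v
    have : (⊥ : SimpleGraph Unit).neighborSet v = ∅ := by
      ext x; simp
    rw [this]; simp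
  · intro v _
    have : (⊥ : SimpleGraph Unit).neighborSet v = ∅ := by
      ext x; simp
    rw [this]; simp

lemma Good.succ {h n : ℕ} (hg : Good h n) : Good (h + 1) (5 * n + 1) := by
  classical
  obtain ⟨V, inst, G, r, L, hT, hn, hL, hw, hd, hl⟩ := hg
  have hcardV : Fintype.card (Option (Fin 5 × V)) = 5 * n + 1 := by
    rw [Fintype.card_option, Fintype.card_prod, Fintype.card_fin, hn]
  have hwalk : ∀ v : Option (Fin 5 × V), ∃ p : (join G r).Walk none v, p.length ≤ h + 1 := by
    intro v
    rcases v with _ | ⟨i, v⟩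
    · exact ⟨SimpleGraph.Walk.nil, by simp⟩
    · obtain ⟨p, hp⟩ := hw v
      have hadj : (join G r).Adj none (some (i, r)) := rfl
      refine ⟨SimpleGraph.Walk.cons hadj (p.map (inc G r i)), ?_⟩
      change (p.map (inc G r i)).length + 1 ≤ h + 1
      rw [SimpleGraph.Walk.length_map]
      omega
  have hconn : (join G r).Connected := by
    have : Nonempty (Option (Fin 5 × V)) := ⟨none⟩
    refine SimpleGraph.Connected.mk ?_
    intro a b
    obtain ⟨p, -⟩ := hwalk a
    obtain ⟨q, -⟩ := hwalk b
    exact ⟨p.reverse.append q⟩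
  -- neighbour sets
  have hnb_none : ((join G r).neighborSet none).ncard ≤ 5 := by
    have hset : (join G r).neighborSet none =
        (fun i : Fin 5 => (some (i, r) : Option (Fin 5 × V))) '' Set.univ := by
      ext x
      rw [SimpleGraph.mem_neighborSet, Set.mem_image]
      constructor
      · intro hx
        rcases x with _ | ⟨i, v⟩
        · exact absurd hx (by simp [join])
        · have hv : v = r := hx
          exact ⟨i, Set.mem_univ i, by rw [hv]⟩
      · rintro ⟨i, -, rfl⟩
        exact rfl
    rw [hset]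
    refine le_trans (Set.ncard_image_le (Set.toFinite _)) ?_
    rw [Set.ncard_univ, Nat.card_eq_fintype_card, Fintype.card_fin]
  have hnb_some : ∀ (i : Fin 5) (v : V), ((join G r).neighborSet (some (i, v))).ncard ≤
      (G.neighborSet v).ncard + (if v = r then 1 else 0) := by
    intro i v
    by_cases hv : v = r
    · rw [if_pos hv]
      have hset : (join G r).neighborSet (some (i, v)) ⊆
          insert none ((fun w : V => (some (i, w) : Option (Fin 5 × V))) '' G.neighborSet v) := by
        intro x hx
        rw [SimpleGraph.mem_neighborSet] at hx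
        rcases x with _ | ⟨j, w⟩
        · exact Set.mem_insert _ _
        · right
          have h1 : i = j := hx.1
          subst h1
          exact ⟨w, hx.2, rfl⟩
      refine le_trans (Set.ncard_le_ncard hset (Set.toFinite _)) ?_
      refine le_trans (Set.ncard_insert_le _ _) ?_
      exact Nat.add_le_add_right (Set.ncard_image_le (Set.toFinite _)) 1
    · rw [if_neg hv]
      have hset : (join G r).neighborSet (some (i, v)) ⊆
          ((fun w : V => (some (i, w) : Option (Fin 5 × V))) '' G.neighborSet v) := by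
        intro x hx
        rw [SimpleGraph.mem_neighborSet] at hx
        rcases x with _ | ⟨j, w⟩
        · exact absurd hx hv
        · have h1 : i = j := hx.1
          subst h1
          exact ⟨w, hx.2, rfl⟩
      refine le_trans (Set.ncard_le_ncard hset (Set.toFinite _)) ?_
      exact le_trans (Set.ncard_image_le (Set.toFinite _)) (Nat.le_add_right _ _)
  -- the edges
  have htree : (join G r).IsTree := by
    rw [SimpleGraph.isTree_iff_connected_and_card] at hT ⊢
    refine ⟨hconn, ?_⟩
    have hle : Nat.card (join G r).edgeSet ≤ 5 * Nat.card G.edgeSet + 5 := by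
      have hset : (join G r).edgeSet ⊆
          ((fun q : Fin 5 × G.edgeSet => (Sym2.map (fun v : V => (some (q.1, v) :
            Option (Fin 5 × V))) q.2.1)) '' Set.univ) ∪
          ((fun i : Fin 5 => s((none : Option (Fin 5 × V)), some (i, r))) '' Set.univ) := by
        intro e he
        induction e using Sym2.ind with
        | _ a b =>
          rw [SimpleGraph.mem_edgeSet] at he
          rcases a with _ | ⟨i, a⟩ <;> rcases b with _ | ⟨j, b⟩
          · exact absurd he (by simp [join])
          · right
            have hb : b = r := he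
            exact ⟨j, Set.mem_univ _, by rw [hb]⟩
          · right
            have hb : a = r := he
            exact ⟨i, Set.mem_univ _, by rw [hb, Sym2.eq_swap]⟩
          · left
            have h1 : i = j := he.1
            subst h1
            exact ⟨(i, ⟨s(a, b), he.2⟩), Set.mem_univ _, by simp⟩
      have h1 : Nat.card (join G r).edgeSet = ((join G r).edgeSet).ncard :=
        (Nat.card_coe_set_eq _)
      rw [h1]
      refine le_trans (Set.ncard_le_ncard hset (Set.toFinite _)) ?_
      refine le_trans (Set.ncard_union_le _ _) ?_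
      have h2 := Set.ncard_image_le (f := fun q : Fin 5 × G.edgeSet => (Sym2.map (fun v : V =>
        (some (q.1, v) : Option (Fin 5 × V))) q.2.1)) (Set.toFinite (Set.univ))
      have h3 := Set.ncard_image_le (f := fun i : Fin 5 => s((none : Option (Fin 5 × V)),
        some (i, r))) (Set.toFinite (Set.univ))
      rw [Set.ncard_univ] at h2 h3
      rw [Nat.card_prod, Nat.card_eq_fintype_card (α := Fin 5), Fintype.card_fin] at h2
      rw [Nat.card_eq_fintype_card (α := Fin 5), Fintype.card_fin] at h3
      omega
    have hge := hconn.card_vert_le_card_edgeSet_add_one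
    have e1 : Nat.card (Option (Fin 5 × V)) = 5 * n + 1 := by
      rw [Nat.card_eq_fintype_card, hcardV]
    have e2 : Nat.card V = n := by rw [Nat.card_eq_fintype_card, hn]
    have e3 := hT.2
    rw [e1] at hge ⊢
    rw [e2] at e3
    omega
  refine ⟨Option (Fin 5 × V), inferInstance, join G r, none,
    (Finset.univ ×ˢ L).map Function.Embedding.some, htree, hcardV, ?_, hwalk, ?_, ?_⟩
  · rw [Finset.card_map, Finset.card_product, hL]
    simp [pow_succ, mul_comm]
  · intro v
    rcases v with _ | ⟨i, v⟩
    · exact ⟨fun _ => hnb_none, hnb_none.trans (by norm_num)⟩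
    · refine ⟨fun h => absurd h (by simp), ?_⟩
      have h1 := hnb_some i v
      have h2 := hd v
      by_cases hv : v = r
      · rw [if_pos hv] at h1
        have := h2.1 hv
        omega
      · rw [if_neg hv] at h1
        have := h2.2
        omega
  · intro v hv
    rw [Finset.mem_map] at hv
    obtain ⟨⟨i, w⟩, hiw, rfl⟩ := hv
    rw [Finset.mem_product] at hiw
    have h3 := hl w hiw.2
    refine ⟨fun h => absurd h (by simp), ?_⟩
    have h1 := hnb_some i w
    change ((join G r).neighborSet (some (i, w))).ncard ≤ 1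
    by_cases hv : w = r
    · rw [if_pos hv] at h1
      have := h3.1 hv
      omega
    · rw [if_neg hv] at h1
      have := h3.2
      omega

lemma good_all (h : ℕ) : ∃ n, 5 ^ h ≤ n ∧ 4 * n < 5 * 5 ^ h ∧ Good h n := by
  induction h with
  | zero => exact ⟨1, by norm_num, by norm_num, good_zero⟩
  | succ h ih =>
    obtain ⟨n, h1, h2, h3⟩ := ih
    refine ⟨5 * n + 1, ?_, ?_, h3.succ⟩
    · rw [pow_succ]; omega
    · rw [pow_succ]; omega

/-- Small exponential dominating sets. -/
lemma gammaE_le {h n : ℕ} (hg : Good (h + 1) n) : ∃ (V : Type) (_ : Fintype V)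
    (G : SimpleGraph V), G.IsTree ∧ (∀ v, (G.neighborSet v).ncard ≤ 6) ∧ Fintype.card V = n ∧
      gammaE G ≤ 2 * 4 ^ h := by
  classical
  obtain ⟨V, inst, G, r, L, hT, hn, hL, hw, hd, hl⟩ := hg
  refine ⟨V, inst, G, hT, fun v => (hd v).2, hn, ?_⟩
  have hle : 2 * 4 ^ h ≤ L.card := by
    rw [hL, pow_succ]
    have := Nat.pow_le_pow_left (by norm_num : 4 ≤ 5) h
    omega
  obtain ⟨S, hSL, hS⟩ := Finset.exists_subset_card_eq hle
  apply Nat.sInf_le
  refine ⟨S, fun u => ?_, hS⟩
  have hpath : ∀ v ∈ S, u ∉ S ∨ u = v → expDist G S u v ≤ ((2 * (h + 1) : ℕ) : ℕ∞) := by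
    intro v hv huv
    obtain ⟨p, hp⟩ := hw u
    obtain ⟨q, hq⟩ := hw v
    set w : G.Walk u v := p.reverse.append q with hwdef
    have hwl : w.length ≤ 2 * (h + 1) := by
      rw [hwdef, SimpleGraph.Walk.length_append, SimpleGraph.Walk.length_reverse]
      omega
    have hb : w.bypass.IsPath := w.bypass_isPath
    have hbl : w.bypass.length ≤ 2 * (h + 1) := le_trans w.length_bypass_le_length hwl
    have hint : ∀ x ∈ w.bypass.support, x ≠ u → x ≠ v → x ∉ S := by
      intro x hx hxu hxv hxS
      obtain ⟨y, z, hyz, hy, hz⟩ := two_nbrs w.bypass hb x hx hxu hxv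
      have h1 := (hl x (hSL hxS)).2
      have h2 : ({y, z} : Set V) ⊆ G.neighborSet x := by
        intro a ha
        rcases ha with rfl | rfl
        · exact hy
        · exact hz
      have h3 := Set.ncard_le_ncard h2 (Set.toFinite _)
      rw [Set.ncard_pair hyz] at h3
      omega
    have hcard : (({u, v} : Finset V) ∩ S).card = 1 := by
      rcases huv with hu | hu
      · have : ({u, v} : Finset V) ∩ S = {v} := by
          ext a
          simp only [Finset.mem_inter, Finset.mem_insert, Finset.mem_singleton]
          constructor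
          · rintro ⟨rfl | rfl, h⟩
            · exact absurd h hu
            · rfl
          · rintro rfl
            exact ⟨Or.inr rfl, hv⟩
        rw [this, Finset.card_singleton]
      · subst hu
        have : ({u, u} : Finset V) ∩ S = {u} := by
          ext a
          simp only [Finset.mem_inter, Finset.mem_insert, Finset.mem_singleton, or_self]
          constructor
          · exact fun h => h.1
          · rintro rfl
            exact ⟨rfl, hv⟩
        rw [this, Finset.card_singleton]
    have h1 : expDist G S u v ≤ (w.bypass.length : ℕ∞) :=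
      iInf_le (fun p : {p : G.Walk u v // p.IsPath ∧ (({u, v} : Finset V) ∩ S).card = 1 ∧
        ∀ x ∈ p.support, x ≠ u → x ≠ v → x ∉ S} => (p.1.length : ℕ∞))
        ⟨w.bypass, hb, hcard, hint⟩
    exact h1.trans (by exact_mod_cast hbl)
  by_cases hu : u ∈ S
  · have h0 : expDist G S u u ≤ ((0 : ℕ) : ℕ∞) := by
      have h1 : expDist G S u u ≤ ((SimpleGraph.Walk.nil : G.Walk u u).length : ℕ∞) :=
        iInf_le (fun p : {p : G.Walk u u // p.IsPath ∧ (({u, u} : Finset V) ∩ S).card = 1 ∧
          ∀ x ∈ p.support, x ≠ u → x ≠ u → x ∉ S} => (p.1.length : ℕ∞))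
          ⟨SimpleGraph.Walk.nil, SimpleGraph.Walk.IsPath.nil, by simp [hu], by simp⟩
      simpa using h1
    have h1 := halfPow_ge h0
    have h2 := Finset.single_le_sum (f := fun v => halfPow (expDist G S u v))
      (fun v _ => halfPow_nonneg _) hu
    simp only [pow_zero] at h1
    have h3 : halfPow (expDist G S u u) ≤ ∑ v ∈ S, halfPow (expDist G S u v) := h2
    linarith
  · have h1 : ∀ v ∈ S, 2 * (1 / 2 : ℝ) ^ (2 * (h + 1)) ≤ halfPow (expDist G S u v) :=
      fun v hv => halfPow_ge (hpath v hv (Or.inl hu))
    have h2 := Finset.card_nsmul_le_sum S _ _ h1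
    rw [hS, nsmul_eq_mul] at h2
    refine le_trans (le_of_eq ?_) h2
    push_cast
    rw [pow_mul, pow_succ]
    have : ((1 : ℝ) / 2) ^ 2 = 4⁻¹ := by norm_num
    rw [this, inv_pow]
    field_simp
    norm_num

/-- The theorem. -/
theorem result : ∀ c : ℝ, 0 < c → ∃ (V : Type) (_ : Fintype V) (G : SimpleGraph V),
    G.IsTree ∧ (∀ v, (G.neighborSet v).ncard ≤ 6) ∧ 2 ≤ Fintype.card V ∧
    (gammaE G : ℝ) < c * (Fintype.card V / Real.log (Fintype.card V)) := by
  intro c hc
  have hlog : 0 < Real.log 25 := Real.log_pos (by norm_num)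
  have hlim := tendsto_self_mul_const_pow_of_lt_one (by norm_num : (0 : ℝ) ≤ 4 / 5)
    (by norm_num : (4 / 5 : ℝ) < 1)
  have hev := hlim.eventually_lt_const (show (0 : ℝ) < c / Real.log 25 by positivity)
  obtain ⟨k, hk, hk1⟩ := (hev.and (Filter.eventually_ge_atTop 1)).exists
  obtain ⟨h, rfl⟩ : ∃ h, k = h + 1 := ⟨k - 1, by omega⟩
  obtain ⟨n, hn1, hn2, hg⟩ := good_all (h + 1)
  obtain ⟨V, inst, G, hT, hd, hcard, hγ⟩ := gammaE_le hg
  have hn5 : 5 ≤ n := le_trans (by rw [pow_succ]; have := Nat.one_le_pow h 5 (by norm_num); omega) hn1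
  refine ⟨V, inst, G, hT, hd, by omega, ?_⟩
  rw [hcard]
  have hnpos : (0 : ℝ) < n := by exact_mod_cast (by omega : 0 < n)
  have hlogn : 0 < Real.log n := Real.log_pos (by exact_mod_cast (by omega : 1 < n))
  have hlogle : Real.log n ≤ ((h + 1 : ℕ) : ℝ) * Real.log 25 := by
    rw [← Real.log_pow]
    apply Real.log_le_log hnpos
    have h2 : n ≤ 25 ^ (h + 1) := by
      have h3 : 5 * 5 ^ (h + 1) ≤ 4 * 25 ^ (h + 1) := by
        have e : (25 : ℕ) ^ (h + 1) = 5 ^ (h + 1) * 5 ^ (h + 1) := by
          rw [← mul_pow]; norm_num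
        rw [e]
        have h4 : 5 ≤ 5 ^ (h + 1) := by
          rw [pow_succ]; have := Nat.one_le_pow h 5 (by norm_num); omega
        nlinarith
      omega
    exact_mod_cast h2
  have hγ' : (gammaE G : ℝ) ≤ 2 * 4 ^ h := by exact_mod_cast hγ
  have hn1' : (5 : ℝ) ^ (h + 1) ≤ n := by exact_mod_cast hn1
  refine lt_of_le_of_lt hγ' ?_
  rw [← mul_div_assoc, lt_div_iff₀ hlogn]
  have hk' : ((h + 1 : ℕ) : ℝ) * (4 / 5) ^ (h + 1) * Real.log 25 < c := by
    rwa [lt_div_iff₀ hlog] at hk
  calc 2 * 4 ^ h * Real.log n ≤ 2 * 4 ^ h * (((h + 1 : ℕ) : ℝ) * Real.log 25) := by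
        apply mul_le_mul_of_nonneg_left hlogle; positivity
    _ ≤ 4 ^ (h + 1) * (((h + 1 : ℕ) : ℝ) * Real.log 25) := by
        apply mul_le_mul_of_nonneg_right _ (by positivity)
        rw [pow_succ]
        have : (0 : ℝ) < 4 ^ h := by positivity
        linarith
    _ = (((h + 1 : ℕ) : ℝ) * (4 / 5) ^ (h + 1) * Real.log 25) * 5 ^ (h + 1) := by
        rw [div_pow]
        field_simp
    _ < c * 5 ^ (h + 1) := by
        apply mul_lt_mul_of_pos_right hk'; positivity
    _ ≤ c * n := mul_le_mul_of_nonneg_left hn1' hc.le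

end Pool.Agent.Results.MP_75fda7_co.SmallSets
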